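import Pool.Agent.V7H25.Sing.Eul

set_option autoImplicit false

/-!
# The Singer conjecture and actions on totally ordered sets

Let a group `G` act by order-preserving bijections on a totally ordered set `X`; no condition is
imposed on the stabilizers. Let `E` be a free resolution of the trivial module `ℂ` (the modules of low
degree being finitely generated) whose basis has levels in `X`: the boundary of an element of the
basis has no terms below its level, the level of `g e` being `g` times the level of `e`. For `x` in
`X` the chains all whose terms have a level `> x` (or `≥ x`) form a subcomplex, the open (closed) cone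
at `x`.

1. The `L²`-Betti numbers of `G` are at most those of the level part of `E`, the complex in which only
the terms of the boundaries which preserve the level are kept.
2. If the inclusions of the open cones in the closed cones induce isomorphisms of the reduced homology
in the degrees at most `k` (including the degree `-1`), the `L²`-Betti numbers of `G` in the degrees at
most `k + 1` vanish; for a Poincaré duality group of dimension `n` those in the degrees at least
`n - (k + 1)` vanish as well. If `n ≤ 2 k + 3`, the Singer conjecture holds for `G`.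

For `X = ℤ` with an action by translations, the hypothesis in 2. is satisfied if the half-spaces of
the resolution are acyclic in the degrees at most `k`, as it is the case for the extensions of `ℤ` by a
group with good finiteness properties; for left-invariant orders the stabilizers are trivial.
-/

open scoped Matrix

universe u v

namespace Pool.Agent.Results.MP_984acc_gt.OrderedActionsH25

open Pool.Agent.Results.MP_984acc_gt.ConnectedPositiveCones (Matrices IsExactAt
  HasAugmentation IsDualityComplex betti)

/-- The action of `G` preserves the total order of `X`. -/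
def OrderPreserving (G : Type u) (X : Type v) [Group G] [MulAction G X] [LinearOrder X] : Prop :=
  ∀ (g : G) (x y : X), x ≤ y → g • x ≤ g • y

/-- The complex given by the matrices `E` (see `ConnectedPositiveCones.Matrices`) is a resolution of
the trivial module `ℂ` in the degrees `0, …, k + 1`: its homology is `ℂ` in degree zero and vanishes
in the degrees `1, …, k + 1`. -/
structure IsResolution {G : Type u} [Group G] (k : ℕ) {q : ℕ → ℕ} (E : Matrices G q) : Prop where
  comp : ∀ i, E (i + 1) * E i = 0
  exact : ∀ i, i ≤ k → IsExactAt E i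
  augmentation : HasAugmentation E

/-- The elements `w i j` of the ordered set are levels of the elements of the basis: the boundary of an
element of the basis has no terms below its level. -/
def IsLevelled {G : Type u} {X : Type v} [Group G] [MulAction G X] [LinearOrder X] {q : ℕ → ℕ}
    (E : Matrices G q) (w : ∀ i, Fin (q i) → X) : Prop :=
  ∀ i l j g, (E i l j).coeff g ≠ 0 → w (i + 1) l ≤ g • w i j

open Classical in
/-- The level part of the complex: only the terms of the boundaries which preserve the level are
kept. -/
noncomputable def levelPart {G : Type u} {X : Type v} [Group G] [MulAction G X] {q : ℕ → ℕ}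
    (E : Matrices G q) (w : ∀ i, Fin (q i) → X) : Matrices G q :=
  fun i l j => MonoidAlgebra.ofCoeff ((E i l j).coeff.filter fun g => w (i + 1) l = g • w i j)

/-- The space of the chains of degree `i` all whose terms have a level with the property `p`. -/
noncomputable def chains {G : Type u} {X : Type v} [Group G] [MulAction G X] {q : ℕ → ℕ}
    (w : ∀ i, Fin (q i) → X) (p : X → Prop) (i : ℕ) :
    Submodule ℂ (Fin (q i) → MonoidAlgebra ℂ G) :=
  Submodule.span ℂ {x | ∀ j g, (x j).coeff g ≠ 0 → p (g • w i j)}

/-- The chains of degree `i` which are boundaries in the complex `E`. If `E` is a resolution, these are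
the chains with boundary zero if `i` is positive and those with augmentation zero if `i = 0`. -/
noncomputable def allCycles {G : Type u} [Group G] {q : ℕ → ℕ} (E : Matrices G q) (i : ℕ) :
    Submodule ℂ (Fin (q i) → MonoidAlgebra ℂ G) :=
  Submodule.span ℂ (Set.range fun y => y ᵥ* E i)

/-- The boundaries of degree `i` of the chains whose levels have the property `p`. -/
noncomputable def boundaries {G : Type u} {X : Type v} [Group G] [MulAction G X] {q : ℕ → ℕ}
    (E : Matrices G q) (w : ∀ i, Fin (q i) → X) (p : X → Prop) (i : ℕ) :
    Submodule ℂ (Fin (q i) → MonoidAlgebra ℂ G) :=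
  Submodule.span ℂ ((fun y => y ᵥ* E i) '' (chains (G := G) w p (i + 1) : Set _))

section cone
variable {G : Type u} {X : Type v} [Group G] [MulAction G X] [LinearOrder X] {q : ℕ → ℕ}

/-- The map from the reduced homology of the open cone at `x` to that of the closed cone at `x` is
injective in degree `i`. -/
def IsInjectiveAt (E : Matrices G q) (w : ∀ i, Fin (q i) → X) (x : X) (i : ℕ) : Prop :=
  chains w (x < ·) i ⊓ boundaries E w (x ≤ ·) i ≤ boundaries E w (x < ·) i

/-- The map from the reduced homology of the open cone at `x` to that of the closed cone at `x` is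
surjective in degree `i`. -/
def IsSurjectiveAt (E : Matrices G q) (w : ∀ i, Fin (q i) → X) (x : X) (i : ℕ) : Prop :=
  chains w (x ≤ ·) i ⊓ allCycles E i ≤
    (chains w (x < ·) i ⊓ allCycles E i) ⊔ boundaries E w (x ≤ ·) i

/-- For all `x` the inclusion of the open cone at `x` in the closed cone at `x` induces isomorphisms
of the reduced homology in the degrees `-1, …, k`. (In degree `-1` this says that the augmentation of
the open cone is not zero.) -/
def ConesAgree (E : Matrices G q) (w : ∀ i, Fin (q i) → X) (k : ℕ) : Prop :=
  ∀ x : X, ¬ chains w (x < ·) 0 ≤ allCycles E 0 ∧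
    ∀ i, i ≤ k → IsInjectiveAt E w x i ∧ IsSurjectiveAt E w x i

end cone

/-- The `L²`-Betti numbers of a complex `D` of length `n` in the degrees `i ≤ k` and `n - i`, `i ≤ k`,
vanish. -/
def VanishUpTo {G : Type u} [Group G] {r : ℕ → ℕ} (D : Matrices G r) (n k : ℕ) : Prop :=
  ∀ i, i ≤ k → betti D i = 0 ∧ (i ≤ n → betti D (n - i) = 0)

/-- The `L²`-Betti numbers of a complex `D` of length `n` outside the degree `n / 2` vanish. -/
def Singer {G : Type u} [Group G] {r : ℕ → ℕ} (D : Matrices G r) (n : ℕ) : Prop :=
  ∀ i, 2 * i ≠ n → betti D i = 0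

/-- The Euler characteristic of a complex of length `n` with modules of rank `r i`. -/
def chi (r : ℕ → ℕ) (n : ℕ) : ℤ := ∑ i ∈ Finset.range (n + 1), (-1) ^ i * (r i : ℤ)

section proofs
open Pool.Agent.W649.ZL Pool.Agent.N309.LO Pool.Agent.N309.PD Pool.Agent.V7H25.Sing

variable {G : Type u} {X : Type v} [Group G] [MulAction G X] {q : ℕ → ℕ}

theorem chains_eq (w : ∀ i, Fin (q i) → X) (p : X → Prop) (i : ℕ) :
    (chains w p i : Submodule ℂ (Fin (q i) → MonoidAlgebra ℂ G)) = cx (w i) p :=
  Submodule.span_eq (cx (w i) p)

theorem mem_allCycles (E : Matrices G q) (i : ℕ) (x : Fin (q i) → MonoidAlgebra ℂ G) :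
    x ∈ allCycles E i ↔ ∃ y, y ᵥ* E i = x := by
  have h : allCycles E i = LinearMap.range (bdm (E i)) :=
    Submodule.span_eq (LinearMap.range (bdm (E i)))
  rw [h]
  rfl

theorem mem_boundaries (E : Matrices G q) (w : ∀ i, Fin (q i) → X) (p : X → Prop) (i : ℕ)
    (x : Fin (q i) → MonoidAlgebra ℂ G) :
    x ∈ boundaries E w p i ↔ ∃ y ∈ (cx (w (i + 1)) p : Submodule ℂ _), y ᵥ* E i = x := by
  have h : boundaries E w p i = (cx (w (i + 1)) p).map (bdm (E i)) := by
    unfold boundaries
    rw [chains_eq]
    exact Submodule.span_eq ((cx (w (i + 1)) p).map (bdm (E i)))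
  rw [h]
  rfl

theorem levelPart_pos (E : Matrices G q) (w : ∀ i, Fin (q i) → X) (i : ℕ) (l : Fin (q (i + 1)))
    (j : Fin (q i)) (t : G) (h : w (i + 1) l = t • w i j) :
    (levelPart E w i l j).coeff t = (E i l j).coeff t := by
  classical
  change ((E i l j).coeff.filter (fun t => w (i + 1) l = t • w i j)) t = _
  exact Finsupp.filter_apply_pos _ _ h

theorem levelPart_neg (E : Matrices G q) (w : ∀ i, Fin (q i) → X) (i : ℕ) (l : Fin (q (i + 1)))
    (j : Fin (q i)) (t : G) (h : w (i + 1) l ≠ t • w i j) :
    (levelPart E w i l j).coeff t = 0 := by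
  classical
  change ((E i l j).coeff.filter (fun t => w (i + 1) l = t • w i j)) t = _
  exact Finsupp.filter_apply_neg _ _ h

theorem levelPart_eq [LinearOrder X] (E : Matrices G q) (w : ∀ i, Fin (q i) → X) (i : ℕ) :
    levelPart E w i = levM (w (i + 1)) (w i) (E i) := by
  funext l j
  apply MonoidAlgebra.coeff_injective
  ext t
  change (levelPart E w i l j).coeff t = _
  by_cases h : w (i + 1) l = t • w i j
  · rw [levM_coeff_pos _ _ _ _ _ _ h, levelPart_pos _ _ _ _ _ _ h]
  · rw [levM_coeff_neg _ _ _ _ _ _ h, levelPart_neg _ _ _ _ _ _ h]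

theorem match_of [LinearOrder X] (E : Matrices G q) (w : ∀ i, Fin (q i) → X) (k : ℕ)
    (hE : IsResolution k E) (hC : ConesAgree E w k) : Match E w k := by
  obtain ⟨ψ, hψ, hψ1, hψ2⟩ := exists_aug E hE.augmentation
  refine ⟨?_, ?_, ?_⟩
  · intro x i hi y hy h
    have h1 := ((hC x).2 i hi).1
    have h2 : y ᵥ* E i ∈ chains w (x < ·) i ⊓ boundaries E w (x ≤ ·) i := by
      refine ⟨?_, ?_⟩
      · rw [chains_eq]; exact h
      · change _ ∈ boundaries E w (x ≤ ·) i
        rw [mem_boundaries]; exact ⟨y, hy, rfl⟩
    have h3 := h1 h2
    rw [mem_boundaries] at h3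
    exact h3
  · intro x i hi y h
    have h1 := ((hC x).2 i hi).2
    have h2 : y ᵥ* E i ∈ chains w (x ≤ ·) i ⊓ allCycles E i := by
      refine ⟨?_, ?_⟩
      · rw [chains_eq]; exact h
      · change _ ∈ allCycles E i
        rw [mem_allCycles]; exact ⟨y, rfl⟩
    obtain ⟨a, ha, b, hb, hab⟩ := Submodule.mem_sup.1 (h1 h2)
    rw [mem_boundaries] at hb
    obtain ⟨y', hy', hb'⟩ := hb
    refine ⟨y', hy', ?_⟩
    rw [hb', ← hab, add_sub_cancel_right]
    have := ha.1
    rw [chains_eq] at this
    exact this
  · intro x z
    have h1 := (hC x).1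
    rw [SetLike.not_le_iff_exists] at h1
    obtain ⟨c, hc, hc2⟩ := h1
    rw [mem_allCycles, hψ1] at hc2
    rw [chains_eq] at hc
    refine ⟨(ψ z / ψ c) • c, Submodule.smul_mem _ _ hc, ?_⟩
    rw [hψ1, map_sub, map_smul, smul_eq_mul, div_mul_cancel₀ _ hc2, sub_self]

end proofs

open Pool.Agent.W649.ZL Pool.Agent.N309.LO Pool.Agent.N309.PD Pool.Agent.V7H25.Sing in
/-- **The Singer conjecture and actions on totally ordered sets.** Let `G` act on the totally ordered
set `X` by order-preserving bijections. Let `D` be the complex of a Poincaré duality group structure of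
dimension `n` on `G`, and `E` a resolution of the trivial module with levels in `X`.

1. The `L²`-Betti numbers in the degrees `1, …, k + 1` are at most those of the level part of `E`.
2. If the open cones agree with the closed cones in homology up to degree `k`, the `L²`-Betti numbers
in the degrees `i` and `n - i` vanish for `i ≤ k + 1`; in particular, if `n ≤ 2 k + 3`, all
`L²`-Betti numbers outside the degree `n / 2` vanish, and if `n = 2 m` the Euler characteristic times
`(-1)^m` is not negative. -/
theorem result (G : Type u) (X : Type v) [Group G] [MulAction G X] [LinearOrder X]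
    (hX : OrderPreserving G X) (n : ℕ) (r : ℕ → ℕ) (D : Matrices G r) (hD : IsDualityComplex n D)
    (q : ℕ → ℕ) (E : Matrices G q) (w : ∀ i, Fin (q i) → X) (k : ℕ) (hE : IsResolution k E)
    (hw : IsLevelled E w) :
    (∀ i, i ≤ k → betti D (i + 1) ≤ betti (levelPart E w) (i + 1)) ∧
    (ConesAgree E w k → VanishUpTo D n (k + 1) ∧
      (n ≤ 2 * k + 3 → Singer D n ∧ ∀ m, n = 2 * m → 0 ≤ (-1) ^ m * chi r n)) := by
  have hX' : OrdInv G X := fun g a b h => hX g a b h
  have hw' : ∀ i, Lx (w (i + 1)) (w i) (E i) := fun i l j t h => hw i l j t h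
  obtain ⟨φ, hφ, hφ1, hφ2⟩ := exists_aug D hD.augmentation
  obtain ⟨ψ, hψ, hψ1, hψ2⟩ := exists_aug E hE.augmentation
  have low : ∀ i, i ≤ k → betti D (i + 1) ≤ vd (harm (opM (E (i + 1))) (opM (E i))) := by
    intro i hi
    rw [betti_succ]
    exact harm_le_harm D E hD.comp hE.comp φ ψ hφ hψ hφ1 hψ1 1
      (fun g x => by rw [hφ2]; exact (one_mul _).symm)
      (fun g x => by rw [hψ2]; exact (one_mul _).symm) i
      (fun j _ => hD.exact j) (fun j hj => hE.exact j (by omega))
  refine ⟨?_, ?_⟩
  · intro i hi
    refine (low i hi).trans ?_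
    rw [betti_succ, levelPart_eq, levelPart_eq]
    exact morse hX' hw' hE.comp i
  · intro hC
    have hM := match_of E w k hE hC
    have b0 : betti D 0 = 0 := by
      rw [betti_zero]
      apply vd_ker_of_injective
      rw [injective_iff_map_eq_zero]
      exact ker_zero_transfer (D 0) (E 0) φ ψ hφ hψ hφ1 hψ1 1
        (fun g x => by rw [hφ2]; exact (one_mul _).symm)
        (fun g x => by rw [hψ2]; exact (one_mul _).symm)
        (ker_zero_le hX' hw' hM)
    have blow : ∀ i, i ≤ k → betti D (i + 1) = 0 := fun i hi =>
      le_antisymm ((low i hi).trans (harm_le_zero hX' hw' hM hE.comp hE.exact i hi))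
        (betti_nonneg D _)
    have btop : betti D n = 0 := by
      rcases Nat.eq_zero_or_pos n with h0 | hpos
      · rw [h0]; exact b0
      · obtain ⟨m, rfl⟩ : ∃ m, n = m + 1 := ⟨n - 1, by omega⟩
        obtain ⟨θ, hθ0, hθ⟩ := hD.coaugmentation m rfl
        have hθ' := dual_aug (D m) θ hθ
        have hθ0' := dualF_ne hθ0
        obtain ⟨χ, hχ⟩ := (aug_of hθ0' _ hθ').exists_char
        obtain ⟨t1, t2, t3⟩ := tw_aug χ (E 0) ψ hψ hψ1 hψ2
        have k0' : ∀ F, opM (adjM (D m)) F = 0 → F = 0 :=
          ker_zero_transfer (adjM (D m)) (twM (invC χ) (E 0)) (dualF θ) (ψ ∘ₗ twV χ) hθ0' t1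
            hθ' t2 χ hχ t3
            (ker_zero_le (E := fun i => twM (invC χ) (E i)) hX' (fun i => tw_lx χ (hw' i))
              (tw_match χ hM))
        rw [betti_succ]
        have h1 : harm (opM (D (m + 1))) (opM (D m)) = ⊥ := by
          rw [eq_bot_iff]
          rintro F ⟨_, hF⟩
          rw [ContinuousLinearMap.orthogonal_range, opM_adj] at hF
          rw [Submodule.mem_bot]
          exact k0' F hF
        rw [h1, vd_bot]
    have bhigh : ∀ i, i ≤ k → i + 1 ≤ n → betti D (n - (i + 1)) = 0 := by
      intro i hi hin
      rcases Nat.eq_or_lt_of_le hin with h | h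
      · rw [h, Nat.sub_self]
        exact b0
      · obtain ⟨m, rfl⟩ : ∃ m, n = m + 2 := ⟨n - 2, by omega⟩
        obtain ⟨j, hj⟩ : ∃ j, j + i + 2 = m + 2 := ⟨m - i, by omega⟩
        obtain ⟨θ, hθ0, hθ⟩ := hD.coaugmentation (m + 1) rfl
        have hθ' := dual_aug (D (m + 1)) θ hθ
        have hθ0' := dualF_ne hθ0
        obtain ⟨χ, hχ⟩ := (aug_of hθ0' _ hθ').exists_char
        obtain ⟨t1, t2, t3⟩ := tw_aug χ (E 0) ψ hψ hψ1 hψ2
        have hcomp : ∀ i, twM (invC χ) (E (i + 1)) * twM (invC χ) (E i) = 0 := by
          intro i
          rw [← twM_mul, hE.comp]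
          funext m j
          exact map_zero _
        have h1 := dual_harm_le (m + 2) (fun i => adjM (D i)) (fun i => twM (invC χ) (E i))
          (fun i => ConnectedPositiveCones.adjM_mul _ _ (hD.comp i)) hcomp
          (fun i hi => dual_exact (D (i + 1)) (D i) (hD.coexact i (by omega)))
          χ (ψ ∘ₗ twV χ) t1 t2 t3
          (fun j hj => by
            obtain rfl : j = m := by omega
            exact ⟨dualF θ, hθ0', hθ', hχ⟩)
          i (fun j hj => twM_exact χ _ _ (hE.exact j (by omega))) j hj
        have h2 := harm_le_zero (E := fun i => twM (invC χ) (E i)) hX'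
          (fun i => tw_lx χ (hw' i)) (tw_match χ hM) hcomp
          (fun j hj => twM_exact χ _ _ (hE.exact j hj)) i hi
        have e3 : m + 2 - (i + 1) = j + 1 := by omega
        rw [e3]
        refine le_antisymm ?_ (betti_nonneg D _)
        rw [betti_succ, harm_dual, opM_adj, opM_adj]
        exact h1.trans h2
    have main : VanishUpTo D n (k + 1) := by
      intro i hi
      cases i with
      | zero => exact ⟨b0, fun _ => btop⟩
      | succ i => exact ⟨blow i (by omega), fun h => bhigh i (by omega) h⟩
    refine ⟨main, ?_⟩
    intro hn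
    have hS : Singer D n := by
      intro i hi
      by_cases hbig : n < i
      · unfold ConnectedPositiveCones.betti
        apply Finset.sum_eq_zero
        intro j _
        have h1 := j.2
        have h2 := hD.length i hbig
        omega
      · rcases lt_or_gt_of_ne hi with h | h
        · exact (main i (by omega)).1
        · have h3 := (main (n - i) (by omega)).2 (by omega)
          have e : n - (n - i) = i := by omega
          rwa [e] at h3
    exact ⟨hS, fun m hm => euler_sign D hD.comp (hD.length (n + 1) (by omega)) hS m hm⟩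

end Pool.Agent.Results.MP_984acc_gt.OrderedActionsH25
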