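import Pool.Agent.V7H25.Sing.Pd
import Pool.Agent.Results.MP_984acc_gt.ConnectedPositiveCones

set_option autoImplicit false

/-!
# The Singer conjecture and the homology of positive cones

Let `G` be a left-ordered group and `E` a free resolution of the trivial module `ℂ` (the modules of
low degree being finitely generated). Give each element `e` of the basis a level `w e` in `G`, such
that the boundary of `e` has no terms of a level below `w e`; the level of `g e` is `g (w e)`. The
chains all whose terms have a level `> 1` (or `≥ 1`) form a subcomplex, the open (closed) positive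
cone. In a geometric resolution these are the full subcomplexes spanned by the vertices which are
`> 1` (or `≥ 1`).

We show that the map from the reduced homology of the open cone to that of the closed cone has a
finite-dimensional kernel and cokernel, and that its index in degree `k` is an upper bound of the
`L²`-Betti number of `G` in degree `k + 1`. If the reduced homology of the closed cone in degree `k`
is finite-dimensional, the index is at most zero and so the `L²`-Betti number vanishes. For a
Poincaré duality group of dimension `n` the same bounds hold in degree `n - (k + 1)`. Hence the Singer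
conjecture holds for the left-ordered Poincaré duality groups of dimension `n` whose positive cones
have finite-dimensional reduced homology in the degrees `k` with `2 (k + 1) < n`; if `n = 2 m`, the
Euler characteristic times `(-1)^m` is not negative for these groups.
-/

open scoped Matrix

universe u

namespace Pool.Agent.Results.MP_984acc_gt.PositiveConeHomologyH25

open Pool.Agent.Results.MP_984acc_gt.ConnectedPositiveCones (LeftInvariant Matrices IsExactAt
  HasAugmentation IsDualityComplex betti)

/-- The complex given by the matrices `E` (see `ConnectedPositiveCones.Matrices`) is a resolution of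
the trivial module `ℂ` in the degrees `0, …, k + 1`: its homology is `ℂ` in degree zero and vanishes
in the degrees `1, …, k + 1`. -/
structure IsResolution {G : Type u} [Group G] (k : ℕ) {q : ℕ → ℕ} (E : Matrices G q) : Prop where
  comp : ∀ i, E (i + 1) * E i = 0
  exact : ∀ i, i ≤ k → IsExactAt E i
  augmentation : HasAugmentation E

/-- The elements `w i j` of the ordered group are levels of the elements of the basis: the boundary
of an element of the basis has no terms below its level. -/
def IsLevelled {G : Type u} [Group G] [LinearOrder G] {q : ℕ → ℕ} (E : Matrices G q)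
    (w : ∀ i, Fin (q i) → G) : Prop :=
  ∀ i l j g, (E i l j).coeff g ≠ 0 → w (i + 1) l ≤ g * w i j

/-- The space of the chains of degree `i` all whose terms have a level with the property `p`. -/
noncomputable def chains {G : Type u} [Group G] {q : ℕ → ℕ} (w : ∀ i, Fin (q i) → G)
    (p : G → Prop) (i : ℕ) : Submodule ℂ (Fin (q i) → MonoidAlgebra ℂ G) :=
  Submodule.span ℂ {x | ∀ j g, (x j).coeff g ≠ 0 → p (g * w i j)}

/-- The cycles of degree `i` among these chains: the chains which are boundaries in the resolution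
`E`, that is, those with boundary zero if `i` is positive and those with augmentation zero if
`i = 0`. -/
noncomputable def cycles {G : Type u} [Group G] {q : ℕ → ℕ} (E : Matrices G q)
    (w : ∀ i, Fin (q i) → G) (p : G → Prop) (i : ℕ) :
    Submodule ℂ (Fin (q i) → MonoidAlgebra ℂ G) :=
  chains w p i ⊓ Submodule.span ℂ (Set.range fun y => y ᵥ* E i)

/-- The boundaries of degree `i` of these chains. -/
noncomputable def boundaries {G : Type u} [Group G] {q : ℕ → ℕ} (E : Matrices G q)
    (w : ∀ i, Fin (q i) → G) (p : G → Prop) (i : ℕ) :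
    Submodule ℂ (Fin (q i) → MonoidAlgebra ℂ G) :=
  Submodule.span ℂ ((fun y => y ᵥ* E i) '' (chains w p (i + 1) : Set _))

/-- The dimension of the image of the subspace `U` modulo `W`, that is the dimension of `U / W` if `W`
is contained in `U` (zero if it is infinite). -/
noncomputable def dimMod {V : Type u} [AddCommGroup V] [Module ℂ V] (U W : Submodule ℂ V) : ℕ :=
  Module.finrank ℂ (U.map W.mkQ)

/-- The image of the subspace `U` modulo `W` is finite-dimensional. -/
def FiniteMod {V : Type u} [AddCommGroup V] [Module ℂ V] (U W : Submodule ℂ V) : Prop :=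
  Module.Finite ℂ (U.map W.mkQ)

section cone
variable {G : Type u} [Group G] [LinearOrder G] {q : ℕ → ℕ}

/-- The reduced homology of the closed positive cone in degree `k` is finite-dimensional. -/
def FiniteClosed (E : Matrices G q) (w : ∀ i, Fin (q i) → G) (k : ℕ) : Prop :=
  FiniteMod (cycles E w (1 ≤ ·) k) (boundaries E w (1 ≤ ·) k)

/-- The cycles of the open positive cone which are boundaries of the closed positive cone, in degree
`k`. Modulo the boundaries of the open cone they form the kernel of the map from the reduced homology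
of the open cone to that of the closed cone. -/
noncomputable def kernelCycles (E : Matrices G q) (w : ∀ i, Fin (q i) → G) (k : ℕ) :
    Submodule ℂ (Fin (q k) → MonoidAlgebra ℂ G) :=
  cycles E w (1 < ·) k ⊓ boundaries E w (1 ≤ ·) k

/-- The sum of the cycles of the open positive cone and the boundaries of the closed positive cone, in
degree `k`. The cycles of the closed cone modulo this space form the cokernel of the map from the
reduced homology of the open cone to that of the closed cone. -/
noncomputable def cokernelBoundaries (E : Matrices G q) (w : ∀ i, Fin (q i) → G) (k : ℕ) :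
    Submodule ℂ (Fin (q k) → MonoidAlgebra ℂ G) :=
  cycles E w (1 < ·) k ⊔ boundaries E w (1 ≤ ·) k

/-- The map from the reduced homology of the open positive cone to that of the closed positive cone
in degree `k` has a finite-dimensional kernel and a finite-dimensional cokernel. -/
def FiniteKernels (E : Matrices G q) (w : ∀ i, Fin (q i) → G) (k : ℕ) : Prop :=
  FiniteMod (kernelCycles E w k) (boundaries E w (1 < ·) k) ∧
    FiniteMod (cycles E w (1 ≤ ·) k) (cokernelBoundaries E w k)

/-- The index of the map from the reduced homology of the open positive cone to that of the closed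
positive cone in degree `k`: the dimension of the kernel minus the dimension of the cokernel. -/
noncomputable def index (E : Matrices G q) (w : ∀ i, Fin (q i) → G) (k : ℕ) : ℝ :=
  (dimMod (kernelCycles E w k) (boundaries E w (1 < ·) k) : ℝ)
    - (dimMod (cycles E w (1 ≤ ·) k) (cokernelBoundaries E w k) : ℝ)

end cone

/-- The `L²`-Betti numbers of a complex `D` of length `n` in the degrees `k + 1` and `n - (k + 1)` are
at most `c`. -/
def BettiAtMost {G : Type u} [Group G] {r : ℕ → ℕ} (D : Matrices G r) (n k : ℕ) (c : ℝ) : Prop :=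
  betti D (k + 1) ≤ c ∧ (k + 1 ≤ n → betti D (n - (k + 1)) ≤ c)

/-- The `L²`-Betti numbers of a complex `D` of length `n` outside the degree `n / 2` vanish. -/
def Singer {G : Type u} [Group G] {r : ℕ → ℕ} (D : Matrices G r) (n : ℕ) : Prop :=
  ∀ i, 2 * i ≠ n → betti D i = 0

/-- The Euler characteristic of a complex of length `n` with modules of rank `r i`. -/
def chi (r : ℕ → ℕ) (n : ℕ) : ℤ := ∑ i ∈ Finset.range (n + 1), (-1) ^ i * (r i : ℤ)

/-- `G` has a left-invariant total order and a levelled resolution such that the reduced homology of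
the closed positive cone is finite-dimensional in degree `k`. -/
def HasFiniteCone (G : Type u) [Group G] (k : ℕ) : Prop :=
  ∃ (_ : LinearOrder G) (q : ℕ → ℕ) (E : Matrices G q) (w : ∀ i, Fin (q i) → G),
    LeftInvariant G ∧ IsResolution k E ∧ IsLevelled E w ∧ FiniteClosed E w k

section proofs
open Pool.Agent.W649.ZL Pool.Agent.N309.LO Pool.Agent.N309.PD Pool.Agent.V7H25.Sing

variable {G : Type u} [Group G]

theorem chains_eq {q : ℕ → ℕ} (w : ∀ i, Fin (q i) → G) (p : G → Prop) (i : ℕ) :
    chains w p i = ch (w i) p := Submodule.span_eq (ch (w i) p)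

theorem range_eq {q : ℕ → ℕ} (E : Matrices G q) (i : ℕ) :
    Submodule.span ℂ (Set.range fun y => y ᵥ* E i) = LinearMap.range (bdm (E i)) :=
  Submodule.span_eq (LinearMap.range (bdm (E i)))

theorem cycles_eq {q : ℕ → ℕ} (E : Matrices G q) (w : ∀ i, Fin (q i) → G) (p : G → Prop)
    (i : ℕ) : cycles E w p i = cyc (w i) (E i) p := by
  unfold cycles cyc
  rw [chains_eq, range_eq]

theorem boundaries_eq {q : ℕ → ℕ} (E : Matrices G q) (w : ∀ i, Fin (q i) → G) (p : G → Prop)
    (i : ℕ) : boundaries E w p i = bds (w (i + 1)) (E i) p := by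
  unfold boundaries
  rw [chains_eq]
  exact Submodule.span_eq (bds (w (i + 1)) (E i) p)

theorem cycles_succ {q : ℕ → ℕ} (E : Matrices G q) (w : ∀ i, Fin (q i) → G) (p : G → Prop)
    (k : ℕ) (hE : IsResolution k E) (i : ℕ) (hi : i ≤ k) (x : Fin (q (i + 1)) → MonoidAlgebra ℂ G) :
    x ∈ cycles E w p (i + 1) ↔ x ∈ chains w p (i + 1) ∧ x ᵥ* E i = 0 := by
  rw [cycles_eq, chains_eq]
  constructor
  · rintro ⟨h1, y, rfl⟩
    refine ⟨h1, ?_⟩
    change (y ᵥ* E (i + 1)) ᵥ* E i = 0
    rw [Matrix.vecMul_vecMul, hE.comp, Matrix.vecMul_zero]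
  · rintro ⟨h1, h2⟩
    exact ⟨h1, hE.exact i hi x h2⟩

theorem betti_nonneg {r : ℕ → ℕ} (D : Matrices G r) (i : ℕ) : 0 ≤ betti D i := by
  cases i with
  | zero =>
    rw [ConnectedPositiveCones.betti_eq D 0 _ (ContinuousLinearMap.isClosed_ker _)
      (ConnectedPositiveCones.harmonic_zero D)]
    exact vd_nonneg _
  | succ i =>
    rw [ConnectedPositiveCones.betti_eq D (i + 1) _ (harm_closed _ _)
      (ConnectedPositiveCones.harmonic_succ D i)]
    exact vd_nonneg _

theorem betti_succ {r : ℕ → ℕ} (D : Matrices G r) (i : ℕ) :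
    betti D (i + 1) = vd (harm (opM (D (i + 1))) (opM (D i))) := by
  rw [ConnectedPositiveCones.betti_eq D (i + 1) _ (harm_closed _ _)
      (ConnectedPositiveCones.harmonic_succ D i)]

theorem betti_zero {r : ℕ → ℕ} (D : Matrices G r) :
    betti D 0 = vd (LinearMap.ker (opM (D 0) : EE G (Fin (r 0)) →ₗ[ℂ] EE G (Fin (r 1)))) := by
  rw [ConnectedPositiveCones.betti_eq D 0 _ (ContinuousLinearMap.isClosed_ker _)
      (ConnectedPositiveCones.harmonic_zero D)]

open Classical in
/-- the lowest element of a finite set -/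
noncomputable def lowest [LinearOrder G] (S : Finset G) : G := if h : S.Nonempty then S.min' h else 1

theorem lowest_le [LinearOrder G] (S : Finset G) (x : G) (h : x ∈ S) : lowest S ≤ x := by
  unfold lowest
  rw [dif_pos ⟨x, h⟩]
  exact Finset.min'_le _ _ h

open Classical in
/-- canonical levels -/
noncomputable def lev [LinearOrder G] {q : ℕ → ℕ} (E : Matrices G q) : ∀ i, Fin (q i) → G
  | 0 => fun _ => 1
  | (i + 1) => fun l => lowest (Finset.univ.biUnion fun j : Fin (q i) =>
        (E i l j).coeff.support.image fun g => g * lev E i j)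

theorem exists_levels [LinearOrder G] {q : ℕ → ℕ} (E : Matrices G q) :
    ∃ w : ∀ i, Fin (q i) → G, IsLevelled E w := by
  classical
  refine ⟨lev E, ?_⟩
  intro i l j g hg
  exact lowest_le _ _ (Finset.mem_biUnion.2 ⟨j, Finset.mem_univ _, Finset.mem_image.2
      ⟨g, Finsupp.mem_support_iff.2 hg, rfl⟩⟩)

/-- the functional of a resolution of the trivial module -/
theorem exists_aug {q : ℕ → ℕ} (E : Matrices G q) (hE : HasAugmentation E) :
    ∃ φ : (Fin (q 0) → MonoidAlgebra ℂ G) →ₗ[ℂ] ℂ, φ ≠ 0 ∧
      (∀ x, (∃ y, y ᵥ* E 0 = x) ↔ φ x = 0) ∧ ∀ (g : G) x, φ (gsm g x) = φ x := by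
  obtain ⟨a, ha0, ha⟩ := hE
  refine ⟨augF a, augF_ne a ha0, ?_, augF_inv a⟩
  intro x
  rw [ha, augF_apply]
  simp only [augm_eq]
  rfl

/-- the bound in the low degrees -/
theorem low_bound [LinearOrder G] (hG : LeftInvariant G) {n : ℕ} {r : ℕ → ℕ} (D : Matrices G r)
    (hD : IsDualityComplex n D) {q : ℕ → ℕ} (E : Matrices G q) (w : ∀ i, Fin (q i) → G) (k : ℕ)
    (hE : IsResolution k E) :
    betti D (k + 1) + (rd (cyc (w k) (E k) (fun g => 1 ≤ g)) (cyc (w k) (E k) (fun g => 1 < g)) : ℝ)
      ≤ (rd (bds (w (k + 1)) (E k) (fun g => 1 ≤ g))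
        (bds (w (k + 1)) (E k) (fun g => 1 < g)) : ℝ) := by
  obtain ⟨φ, hφ, hφ1, hφ2⟩ := exists_aug D hD.augmentation
  obtain ⟨ψ, hψ, hψ1, hψ2⟩ := exists_aug E hE.augmentation
  obtain ⟨t1, t2, t3⟩ := tw_aug (1 : G →* ℂ) (E 0) ψ hψ hψ1 hψ2
  have h1 := harm_le_harm D (fun i => twM (invC 1) (E i)) hD.comp
    (fun i => by
      rw [← twM_mul, hE.comp]
      funext m j
      exact map_zero _) φ (ψ ∘ₗ twV 1) hφ t1 hφ1 t2 1
    (fun g x => by rw [hφ2]; exact (one_mul _).symm) t3 k
    (fun i _ => hD.exact i) (fun i hi => twM_exact 1 _ _ (hE.exact i (by omega)))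
  have h2 := harm_tw_le hG (1 : G →* ℂ) (w k) (w (k + 1)) (E k) (E (k + 1)) (hE.comp k)
    (hE.exact k (le_refl k))
  rw [betti_succ]
  linarith

/-- the bound in the high degrees -/
theorem high_bound [LinearOrder G] (hG : LeftInvariant G) {n : ℕ} {r : ℕ → ℕ} (D : Matrices G r)
    (hD : IsDualityComplex n D) {q : ℕ → ℕ} (E : Matrices G q) (w : ∀ i, Fin (q i) → G) (k : ℕ)
    (hE : IsResolution k E) (j : ℕ) (hj : j + k + 2 = n) :
    betti D (j + 1) + (rd (cyc (w k) (E k) (fun g => 1 ≤ g)) (cyc (w k) (E k) (fun g => 1 < g)) : ℝ)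
      ≤ (rd (bds (w (k + 1)) (E k) (fun g => 1 ≤ g))
        (bds (w (k + 1)) (E k) (fun g => 1 < g)) : ℝ) := by
  obtain ⟨m, rfl⟩ : ∃ m, n = m + 2 := ⟨n - 2, by omega⟩
  obtain ⟨θ, hθ0, hθ⟩ := hD.coaugmentation (m + 1) rfl
  have hθ' := dual_aug (D (m + 1)) θ hθ
  have hθ0' := dualF_ne hθ0
  obtain ⟨χ, hχ⟩ := (aug_of hθ0' _ hθ').exists_char
  obtain ⟨ψ, hψ, hψ1, hψ2⟩ := exists_aug E hE.augmentation
  obtain ⟨t1, t2, t3⟩ := tw_aug χ (E 0) ψ hψ hψ1 hψ2
  have h1 := dual_harm_le (m + 2) (fun i => adjM (D i)) (fun i => twM (invC χ) (E i))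
    (fun i => ConnectedPositiveCones.adjM_mul _ _ (hD.comp i))
    (fun i => by
      rw [← twM_mul, hE.comp]
      funext m j
      exact map_zero _)
    (fun i hi => dual_exact (D (i + 1)) (D i) (hD.coexact i (by omega)))
    χ (ψ ∘ₗ twV χ) t1 t2 t3
    (fun j hj => by
      obtain rfl : j = m := by omega
      exact ⟨dualF θ, hθ0', hθ', hχ⟩)
    k (fun i hi => twM_exact χ _ _ (hE.exact i (by omega))) j hj
  have h2 := harm_tw_le hG χ (w k) (w (k + 1)) (E k) (E (k + 1)) (hE.comp k)
    (hE.exact k (le_refl k))
  rw [betti_succ, harm_dual, opM_adj, opM_adj]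
  linarith

theorem betti_zero_eq [Nontrivial G] [LinearOrder G] (hG : LeftInvariant G) {n : ℕ} {r : ℕ → ℕ}
    (D : Matrices G r) (hD : IsDualityComplex n D) : betti D 0 = 0 := by
  obtain ⟨φ, hφ, hφ1, _⟩ := exists_aug D hD.augmentation
  rw [betti_zero]
  apply vd_ker_of_injective
  rw [injective_iff_map_eq_zero]
  exact ker_zero (nz_left hG) (D 0) φ (aug_of hφ _ hφ1) hφ1

theorem betti_top_eq [Nontrivial G] [LinearOrder G] (hG : LeftInvariant G) {n : ℕ} {r : ℕ → ℕ}
    (D : Matrices G r) (hD : IsDualityComplex (n + 1) D) : betti D (n + 1) = 0 := by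
  obtain ⟨θ, hθ0, hθ⟩ := hD.coaugmentation n rfl
  have hθ' := dual_aug (D n) θ hθ
  have k0' : ∀ F, opM (adjM (D n)) F = 0 → F = 0 :=
    ker_zero (nz_left hG) _ _ (aug_of (dualF_ne hθ0) _ hθ') hθ'
  rw [betti_succ]
  have h1 : harm (opM (D (n + 1))) (opM (D n)) = ⊥ := by
    rw [eq_bot_iff]
    rintro F ⟨_, hF⟩
    rw [ContinuousLinearMap.orthogonal_range, opM_adj] at hF
    rw [Submodule.mem_bot]
    exact k0' F hF
  rw [h1, vd_bot]

/-- the alternating sums of the `L²`-Betti numbers -/
theorem alt_sum {n : ℕ} {r : ℕ → ℕ} (D : Matrices G r) (hD : IsDualityComplex n D) (N : ℕ) :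
    ∑ i ∈ Finset.range (N + 1), (-1 : ℝ) ^ i * betti D i
      = (-1 : ℝ) ^ N * vd (LinearMap.ker (opM (D N) : EE G (Fin (r N)) →ₗ[ℂ] EE G (Fin (r (N + 1)))))
        + ∑ i ∈ Finset.range N, (-1 : ℝ) ^ i * r i := by
  induction N with
  | zero =>
    rw [Finset.sum_range_one, Finset.sum_range_zero, betti_zero, add_zero]
  | succ N ih =>
    rw [Finset.sum_range_succ, ih, Finset.sum_range_succ _ N, betti_succ,
      vd_harm_eq _ _ (opM_eqv _) (opM_comp_zero _ _ (hD.comp N)), Fintype.card_fin]
    ring

theorem euler {n : ℕ} {r : ℕ → ℕ} (D : Matrices G r) (hD : IsDualityComplex n D) :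
    ∑ i ∈ Finset.range (n + 1), (-1 : ℝ) ^ i * r i
      = ∑ i ∈ Finset.range (n + 1), (-1 : ℝ) ^ i * betti D i := by
  rw [alt_sum D hD n, Finset.sum_range_succ, add_comm]
  congr 2
  have h0 : IsEmpty (Fin (r (n + 1))) := by
    rw [hD.length (n + 1) (by omega)]
    infer_instance
  have h1 : LinearMap.ker (opM (D n) : EE G (Fin (r n)) →ₗ[ℂ] EE G (Fin (r (n + 1)))) = ⊤ := by
    rw [eq_top_iff]
    intro F _
    change opM (D n) F = 0
    ext x
    exact h0.elim x.2
  rw [h1, vd_top, Fintype.card_fin]

end proofs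

/-- **The Singer conjecture and the homology of positive cones.** Let `D` be the complex of a
Poincaré duality group structure of dimension `n` on the nontrivial left-ordered group `G`.

0. All complexes of finitely generated free modules, for instance `D`, have levels.
1. Let `E` be a levelled resolution of the trivial module. The kernel and the cokernel of the map
from the reduced homology of the open positive cone in degree `k` to that of the closed positive cone
are finite-dimensional, and the `L²`-Betti numbers in the degrees `k + 1` and `n - (k + 1)` are at most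
the dimension of the kernel minus that of the cokernel.
2. If for some left-invariant order and some levelled resolution the reduced homology of the closed
positive cone in degree `k` is finite-dimensional, the `L²`-Betti numbers in the degrees `k + 1` and
`n - (k + 1)` vanish.
3. If this holds for all `k` with `2 (k + 1) < n`, then all `L²`-Betti numbers outside the degree
`n / 2` vanish, and if `n = 2 m` the Euler characteristic times `(-1)^m` is not negative. -/
theorem result (G : Type u) [Group G] [Nontrivial G] [LinearOrder G] (hG : LeftInvariant G)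
    (n : ℕ) (r : ℕ → ℕ) (D : Matrices G r) (hD : IsDualityComplex n D) :
    (∀ (q : ℕ → ℕ) (E : Matrices G q), ∃ w, IsLevelled E w) ∧
    (∀ (q : ℕ → ℕ) (E : Matrices G q) (w : ∀ i, Fin (q i) → G) (k : ℕ),
      IsResolution k E → IsLevelled E w → FiniteKernels E w k ∧ BettiAtMost D n k (index E w k)) ∧
    (∀ k, HasFiniteCone G k → BettiAtMost D n k 0) ∧
    ((∀ k, 2 * (k + 1) < n → HasFiniteCone G k) →
      Singer D n ∧ ∀ m, n = 2 * m → 0 ≤ (-1) ^ m * chi r n) := by
  have b0 := betti_zero_eq hG D hD
  have hgt : ∀ (a b : G), a ≤ b → 1 < a → 1 < b := fun a b h h' => lt_of_lt_of_le h' h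
  have hge : ∀ (a b : G), a ≤ b → 1 ≤ a → 1 ≤ b := fun a b h h' => le_trans h' h
  have p2 : ∀ k, HasFiniteCone G k →
      betti D (k + 1) = 0 ∧ (k + 1 ≤ n → betti D (n - (k + 1)) = 0) := by
    intro k hk
    obtain ⟨o, q, E, w, ho, hE, hw, hfin⟩ := hk
    have hnt : ∃ g : G, @LT.lt G o.toLT 1 g := by
      obtain ⟨g, hg⟩ := exists_ne (1 : G)
      rcases lt_or_gt_of_ne hg with h | h
      · refine ⟨g⁻¹, lt_of_le_of_ne ?_ ?_⟩
        · have := ho g⁻¹ _ _ h.le
          rwa [inv_mul_cancel, mul_one] at this
        · exact fun h' => hg (inv_eq_one.1 h'.symm)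
      · exact ⟨g, h⟩
    have hgt' : ∀ (a b : G), a ≤ b → 1 < a → 1 < b := fun a b h h' => lt_of_lt_of_le h' h
    have hge' : ∀ (a b : G), a ≤ b → 1 ≤ a → 1 ≤ b := fun a b h h' => le_trans h' h
    have hfin' : V7H25.Sing.RF (V7H25.Sing.cyc (w k) (E k) (fun g => 1 ≤ g))
        (V7H25.Sing.bds (w (k + 1)) (E k) (fun g => 1 ≤ g)) := by
      unfold FiniteClosed at hfin
      rw [cycles_eq, boundaries_eq] at hfin
      exact hfin
    have hidx := V7H25.Sing.index_le
      (V7H25.Sing.bds (w (k + 1)) (E k) (fun g => 1 ≤ g))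
      (V7H25.Sing.bds (w (k + 1)) (E k) (fun g => 1 < g))
      (V7H25.Sing.cyc (w k) (E k) (fun g => 1 ≤ g))
      (V7H25.Sing.cyc (w k) (E k) (fun g => 1 < g))
      (V7H25.Sing.bds_mono _ _ (fun g h => le_of_lt h))
      (V7H25.Sing.bds_le_cyc ho (hw k) hge')
      (V7H25.Sing.bds_le_cyc ho (hw k) hgt')
      (V7H25.Sing.cyc_mono _ _ (fun g h => le_of_lt h))
      (V7H25.Sing.rf_bds (hE.comp k) (hE.exact k (le_refl k)))
      hfin'
      (fun hf => V7H25.Sing.rd_open_le ho hnt (w k) (w (k + 1)) (E k) hfin' hf)
    have hidx' : ((V7H25.Sing.rd (V7H25.Sing.bds (w (k + 1)) (E k) (fun g => 1 ≤ g))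
        (V7H25.Sing.bds (w (k + 1)) (E k) (fun g => 1 < g)) : ℕ) : ℝ)
        ≤ (V7H25.Sing.rd (V7H25.Sing.cyc (w k) (E k) (fun g => 1 ≤ g))
          (V7H25.Sing.cyc (w k) (E k) (fun g => 1 < g)) : ℝ) := by exact_mod_cast hidx
    have e1 := low_bound ho D hD E w k hE
    refine ⟨le_antisymm (by linarith) (betti_nonneg D _), ?_⟩
    intro hkn
    rcases Nat.eq_or_lt_of_le hkn with h | h
    · rw [h, Nat.sub_self]
      exact b0
    · obtain ⟨j, hj⟩ : ∃ j, j + k + 2 = n := ⟨n - (k + 2), by omega⟩
      have e2 := high_bound ho D hD E w k hE j hj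
      have e3 : n - (k + 1) = j + 1 := by omega
      rw [e3]
      exact le_antisymm (by linarith) (betti_nonneg D _)
  refine ⟨fun q E => exists_levels E, ?_, fun k hk => ⟨(p2 k hk).1.le, fun h => ((p2 k hk).2 h).le⟩,
    ?_⟩
  · intro q E w k hE hw
    have hS := V7H25.Sing.rf_bds (w1 := w (k + 1)) (hE.comp k) (hE.exact k (le_refl k))
    have hM := V7H25.Sing.rf_cyc (w k) (E k)
    have hidx := V7H25.Sing.index_eq
      (V7H25.Sing.bds (w (k + 1)) (E k) (fun g => 1 ≤ g))
      (V7H25.Sing.bds (w (k + 1)) (E k) (fun g => 1 < g))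
      (V7H25.Sing.cyc (w k) (E k) (fun g => 1 ≤ g))
      (V7H25.Sing.cyc (w k) (E k) (fun g => 1 < g))
      (V7H25.Sing.bds_le_cyc hG (hw k) hge)
      (V7H25.Sing.bds_le_cyc hG (hw k) hgt)
      (V7H25.Sing.cyc_mono _ _ (fun g h => le_of_lt h)) hS hM
    have hK : FiniteMod (kernelCycles E w k) (boundaries E w (1 < ·) k) := by
      unfold kernelCycles
      rw [cycles_eq, boundaries_eq, boundaries_eq]
      exact V7H25.Sing.rf_mono (inf_le_right (a := V7H25.Sing.cyc (w k) (E k) (fun g => 1 < g))) hS
    have hC : FiniteMod (cycles E w (1 ≤ ·) k) (cokernelBoundaries E w k) := by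
      unfold cokernelBoundaries
      rw [cycles_eq, cycles_eq, boundaries_eq]
      exact V7H25.Sing.rf_right (le_sup_left (b := V7H25.Sing.bds (w (k + 1)) (E k) (fun g => 1 ≤ g))) hM
    have hidx' : ((V7H25.Sing.rd (V7H25.Sing.bds (w (k + 1)) (E k) (fun g => 1 ≤ g))
        (V7H25.Sing.bds (w (k + 1)) (E k) (fun g => 1 < g)) : ℕ) : ℝ)
        + (dimMod (cycles E w (1 ≤ ·) k) (cokernelBoundaries E w k) : ℝ)
        = (V7H25.Sing.rd (V7H25.Sing.cyc (w k) (E k) (fun g => 1 ≤ g))
          (V7H25.Sing.cyc (w k) (E k) (fun g => 1 < g)) : ℝ)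
        + (dimMod (kernelCycles E w k) (boundaries E w (1 < ·) k) : ℝ) := by
      unfold kernelCycles cokernelBoundaries
      rw [cycles_eq, cycles_eq, boundaries_eq, boundaries_eq]
      exact_mod_cast hidx
    have e1 := low_bound hG D hD E w k hE
    have hind : index E w k = (dimMod (kernelCycles E w k) (boundaries E w (1 < ·) k) : ℝ)
        - (dimMod (cycles E w (1 ≤ ·) k) (cokernelBoundaries E w k) : ℝ) := rfl
    refine ⟨⟨hK, hC⟩, by linarith, ?_⟩
    intro hkn
    rcases Nat.eq_or_lt_of_le hkn with h | h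
    · rw [h, Nat.sub_self, b0]
      have := betti_nonneg D (k + 1)
      linarith
    · obtain ⟨j, hj⟩ : ∃ j, j + k + 2 = n := ⟨n - (k + 2), by omega⟩
      have e2 := high_bound hG D hD E w k hE j hj
      have e3 : n - (k + 1) = j + 1 := by omega
      rw [e3]
      linarith
  · intro hk
    have main : ∀ i, 2 * i ≠ n → betti D i = 0 := by
      intro i hi
      by_cases hbig : n < i
      · unfold ConnectedPositiveCones.betti
        apply Finset.sum_eq_zero
        intro j _
        have h1 := j.2
        have h2 := hD.length i hbig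
        omega
      · by_cases h0 : i = 0
        · rw [h0]; exact b0
        · by_cases hn : i = n
          · obtain ⟨n', rfl⟩ : ∃ n', n = n' + 1 := ⟨n - 1, by omega⟩
            rw [hn]
            exact betti_top_eq hG D hD
          · rcases lt_or_gt_of_ne hi with h | h
            · have h3 := (p2 (i - 1) (hk (i - 1) (by omega))).1
              have e : i - 1 + 1 = i := by omega
              rwa [e] at h3
            · have h3 := (p2 (n - i - 1) (hk (n - i - 1) (by omega))).2 (by omega)
              have e : n - (n - i - 1 + 1) = i := by omega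
              rwa [e] at h3
    refine ⟨main, ?_⟩
    intro m hm
    have hreal : (0 : ℝ) ≤ (-1 : ℝ) ^ m * ∑ i ∈ Finset.range (n + 1), (-1 : ℝ) ^ i * r i := by
      rw [euler D hD, Finset.sum_eq_single m]
      · rw [← mul_assoc, ← pow_add, ← two_mul, pow_mul, neg_one_sq, one_pow, one_mul]
        exact betti_nonneg D m
      · intro i _ hi
        rw [main i (by omega), mul_zero]
      · intro h
        exact absurd (Finset.mem_range.2 (by omega)) h
    have hcast : (((-1) ^ m * chi r n : ℤ) : ℝ)
        = (-1 : ℝ) ^ m * ∑ i ∈ Finset.range (n + 1), (-1 : ℝ) ^ i * r i := by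
      unfold chi
      push_cast
      rfl
    rw [← hcast] at hreal
    exact_mod_cast hreal

end Pool.Agent.Results.MP_984acc_gt.PositiveConeHomologyH25
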