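import Pool.Agent.V7H23.SG.Law

/-!
# Singer's conjecture and its asymptotic forms

The product of two duality complexes (the complexes of Poincaré duality groups) is a duality complex,
and the Künneth formula holds for the `L²`-Betti numbers. Hence, for every class of groups which is
closed under direct products, Singer's conjecture follows from any one of several much weaker
asymptotic statements: vanishing outside a window of size `o(n)` about the middle dimension, or only
superexponentially small `L²`-Betti numbers outside such a window; or an `L²`-Betti number in such a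
window which is not negligible, that is, is `1 / o(√n)` of the sum of all. The exponent `1 / 2` comes
from the local limit theorem: the Poincaré polynomial of the `N`-th power is the `N`-th power.
-/

set_option autoImplicit false

universe u

namespace Pool.Agent.Results.MP_984acc_gt.ProductsH23

open Pool.Agent.V7H23.SG

theorem result :
    -- the product of duality complexes and the Künneth formula
    (∀ (G H : Type u) [Group G] [Group H] (n m : ℕ) (C : Cx G) (D : Cx H),
      IsDuality n C → IsDuality m D → IsDuality (n + m) (C.prod D) ∧
        ∀ k, betti (C.prod D) k =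
          ∑ p ∈ Finset.HasAntidiagonal.antidiagonal k, betti C p.1 * betti D p.2) ∧
    -- let `𝒞` be a class of groups closed under direct products
    ∀ 𝒞 : ∀ (G : Type u) [Group G], Prop,
      (∀ (G H : Type u) [Group G] [Group H], 𝒞 G → 𝒞 H → 𝒞 (G × H)) →
      -- (1) if the `b i` are very small outside a window of size `o(m)`, then Singer's conjecture
      ((Asymptotically 𝒞 fun ε m b => ∀ i : ℕ, ε * m < |2 * (i : ℝ) - m| →
          b i ≤ ε ^ m * ∑ j ∈ Finset.range (m + 1), b j) →
        Always 𝒞 fun n b => ∀ i : ℕ, 2 * i ≠ n → b i = 0) ∧
      -- (2) if a number `b k` in such a window is not negligible, then Singer's conjecture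
      ((Asymptotically 𝒞 fun ε m b => ∃ k : ℕ, |2 * (k : ℝ) - m| ≤ ε * m ∧
          ∑ j ∈ Finset.range (m + 1), b j ≤ ε * √m * b k) →
        Always 𝒞 fun n b => ∀ i : ℕ, 2 * i ≠ n → b i = 0) ∧
      -- (3) if the largest `b k` is not negligible, then at most one `b i` is not zero
      ((Asymptotically 𝒞 fun ε m b => ∃ k : ℕ,
          ∑ j ∈ Finset.range (m + 1), b j ≤ ε * √m * b k) →
        Always 𝒞 fun _ b => ∀ i j : ℕ, b i ≠ 0 → b j ≠ 0 → i = j) ∧
      -- (4) if only `o(m)` of the `b i` are not zero, then at most one `b i` is not zero
      ((Asymptotically 𝒞 fun ε m b => ({k | b k ≠ 0}.ncard : ℝ) ≤ ε * m) →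
        Always 𝒞 fun _ b => ∀ i j : ℕ, b i ≠ 0 → b j ≠ 0 → i = j) ∧
      -- (5) the Euler characteristic: all nonzero `b i` are in degrees of the same parity
      ((Asymptotically 𝒞 fun ε m b => ∑ j ∈ Finset.range (m + 1), b j ≤
          (1 + ε) ^ m * |∑ j ∈ Finset.range (m + 1), (-1) ^ j * b j|) →
        Always 𝒞 fun _ b => ∀ i j : ℕ, b i ≠ 0 → b j ≠ 0 → Even (i + j)) :=
  ⟨fun _ _ _ _ _ _ C D hC hD => ⟨hC.prod hD, betti_prod C D⟩,
    fun _ h => ⟨window h, middle h, largest h, degrees h, euler h⟩⟩

end Pool.Agent.Results.MP_984acc_gt.ProductsH23
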